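import Pool.Agent.MP_0d3a63_an.Defs

/-!
Weakly open sets, and the super alternative Daugavet property for finitely many sets at once.
-/

set_option autoImplicit false

open Set
open scoped Pointwise

namespace Pool.Agent.MP_0d3a63_an

variable {𝕜 : Type*} [RCLike 𝕜] {X : Type*} [NormedAddCommGroup X] [NormedSpace 𝕜 X]

/-- weakly open sets -/
def WO (𝕜 : Type*) [RCLike 𝕜] {X : Type*} [NormedAddCommGroup X] [NormedSpace 𝕜 X]
    (U : Set X) : Prop :=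
  ∃ O : Set (WeakSpace 𝕜 X), IsOpen O ∧ U = {y | toWeakSpace 𝕜 X y ∈ O}

lemma WO.inter {U V : Set X} (hU : WO 𝕜 U) (hV : WO 𝕜 V) : WO 𝕜 (U ∩ V) := by
  obtain ⟨O, hO, rfl⟩ := hU
  obtain ⟨P, hP, rfl⟩ := hV
  exact ⟨O ∩ P, hO.inter hP, rfl⟩

lemma cont_weak (g : X →L[𝕜] 𝕜) : Continuous fun x : WeakSpace 𝕜 X => g ((toWeakSpace 𝕜 X).symm x) :=
  WeakBilin.eval_continuous (topDualPairing 𝕜 X).flip g

lemma WO.preimage (g : X →L[𝕜] 𝕜) {O : Set 𝕜} (hO : IsOpen O) : WO 𝕜 {y : X | g y ∈ O} :=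
  ⟨{y | g ((toWeakSpace 𝕜 X).symm y) ∈ O}, hO.preimage (cont_weak g), by ext y; simp⟩

lemma WO.half (g : X →L[𝕜] 𝕜) (a : ℝ) : WO 𝕜 {y : X | a < RCLike.re (g y)} :=
  WO.preimage g (isOpen_lt continuous_const RCLike.continuous_re)

lemma WO.univ : WO 𝕜 (Set.univ : Set X) := ⟨Set.univ, isOpen_univ, by simp⟩

/-- basic weak neighbourhoods -/
def nb (z : X) (F : Finset (X →L[𝕜] 𝕜)) (δ : ℝ) : Set X := {y | ∀ g ∈ F, ‖g y - g z‖ < δ}

lemma WO.nb' (z : X) (F : Finset (X →L[𝕜] 𝕜)) (δ : ℝ) : WO 𝕜 (nb z F δ) := by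
  classical
  unfold nb
  induction F using Finset.induction_on with
  | empty => simpa using WO.univ
  | insert g F hg ih =>
    have h1 : WO 𝕜 {y : X | g y ∈ {k : 𝕜 | ‖k - g z‖ < δ}} :=
      WO.preimage g (isOpen_lt (by fun_prop) continuous_const)
    have h2 := h1.inter ih
    convert h2 using 1
    ext y
    simp

lemma WO.basic {U : Set X} (hU : WO 𝕜 U) {z : X} (hz : z ∈ U) :
    ∃ (F : Finset (X →L[𝕜] 𝕜)) (δ : ℝ), 0 < δ ∧ nb z F δ ⊆ U := by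
  obtain ⟨O, hO, rfl⟩ := hU
  have hO' : ∃ P : Set ((X →L[𝕜] 𝕜) → 𝕜), IsOpen P ∧
      (fun (x : X) (g : X →L[𝕜] 𝕜) => g x) ⁻¹' P = {y : X | toWeakSpace 𝕜 X y ∈ O} :=
    isOpen_induced_iff.1 hO
  obtain ⟨P, hP, hPO⟩ := hO'
  rw [isOpen_pi_iff] at hP
  have hz' : (fun g : X →L[𝕜] 𝕜 => g z) ∈ P := by
    have : z ∈ (fun (x : X) (g : X →L[𝕜] 𝕜) => g x) ⁻¹' P := by rw [hPO]; exact hz
    exact this
  obtain ⟨F, u, hu, hF⟩ := hP _ hz'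
  have h1 : ∀ g : X →L[𝕜] 𝕜, ∃ δ : ℝ, 0 < δ ∧ (g ∈ F → ∀ k : 𝕜, ‖k - g z‖ < δ → k ∈ u g) := by
    intro g
    by_cases hg : g ∈ F
    · obtain ⟨δ, hδ, h⟩ := Metric.isOpen_iff.1 (hu g hg).1 _ (hu g hg).2
      exact ⟨δ, hδ, fun _ k hk => h (by rw [Metric.mem_ball, dist_eq_norm]; exact hk)⟩
    · exact ⟨1, one_pos, fun h => absurd h hg⟩
  choose δ hδ h using h1
  have h2 : ∀ F : Finset (X →L[𝕜] 𝕜), ∃ δ₀ : ℝ, 0 < δ₀ ∧ ∀ g ∈ F, δ₀ ≤ δ g := by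
    classical
    intro F
    induction F using Finset.induction_on with
    | empty => exact ⟨1, one_pos, by simp⟩
    | insert g F hg ih =>
      obtain ⟨δ₀, h0, h1⟩ := ih
      refine ⟨min δ₀ (δ g), lt_min h0 (hδ g), ?_⟩
      intro k hk
      rcases Finset.mem_insert.1 hk with rfl | hk
      · exact min_le_right _ _
      · exact (min_le_left _ _).trans (h1 k hk)
  obtain ⟨δ₀, h0, h1⟩ := h2 F
  refine ⟨F, δ₀, h0, ?_⟩
  intro y hy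
  have : (fun g : X →L[𝕜] 𝕜 => g y) ∈ P := by
    apply hF
    intro g hg
    exact h g hg _ ((hy g hg).trans_le (h1 g hg))
  have h3 : y ∈ (fun (x : X) (g : X →L[𝕜] 𝕜) => g x) ⁻¹' P := this
  rw [hPO] at h3
  exact h3

end Pool.Agent.MP_0d3a63_an
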