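import Pool.Agent.MP_0d3a63_an.Real

/-!
The complex case.
-/

set_option autoImplicit false

open Set
open scoped Pointwise ComplexConjugate

namespace Pool.Agent.MP_0d3a63_an

section

variable {𝕜 : Type*} [RCLike 𝕜] {X : Type*} [NormedAddCommGroup X] [NormedSpace 𝕜 X]

lemma re_smul_cast (f : X →L[𝕜] 𝕜) (t : ℝ) (y : X) :
    RCLike.re (f ((t : 𝕜) • y)) = t * RCLike.re (f y) := by
  rw [map_smul, smul_eq_mul, RCLike.re_ofReal_mul]

/-- going outwards along a ray does not create new values -/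
theorem ray (hdim : ¬ FiniteDimensional 𝕜 X) (hs : SuperADP 𝕜 X) {u z₁ : X}
    {F : Finset (X →L[𝕜] 𝕜)} {δ c ξ α : ℝ} (hδ : 0 < δ) (hα : 1 / 2 ≤ α) (hα1 : α ≤ 1)
    (hc : c ≤ 1) (hξ : 0 < ξ) (hB : Bd 𝕜 u (nb ((α : 𝕜) • z₁) F δ) c) :
    Bd 𝕜 u (nb z₁ F δ) (c + ξ) := by
  by_contra h
  unfold Bd at h
  push Not at h
  obtain ⟨η, hη, hB⟩ := hB
  set t : ℝ := min η 1 / 8 with ht
  have hm0 : 0 < min η 1 := lt_min hη one_pos
  have ht0 : 0 < t := by positivity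
  have htη : t ≤ η / 8 := by rw [ht]; linarith [min_le_left η 1]
  have ht1 : t ≤ 1 / 8 := by rw [ht]; linarith [min_le_right η 1]
  have hx0 : 0 < min ξ 1 := lt_min hξ one_pos
  have hx1 : min ξ 1 ≤ 1 := min_le_right _ _
  have hxξ : min ξ 1 ≤ ξ := min_le_left _ _
  set κ : ℝ := t * min ξ 1 / 16 with hκ
  have hκ0 : 0 < κ := by positivity
  have hκt : κ ≤ t / 16 := by rw [hκ]; nlinarith
  have hκξ : κ ≤ ξ / 128 := by rw [hκ]; nlinarith
  have hκd : (κ + κ) / t = min ξ 1 / 8 := by rw [hκ]; field_simp; ring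
  obtain ⟨f₀, hf₀, hf₀u, a, ha, ha1, hca⟩ := h κ hκ0
  have h0 : (0 : X) ∈ nb (0 : X) F δ := by
    intro g _
    simpa using hδ
  obtain ⟨b, hb, hb1, θ, hθ, h2⟩ := super_step hdim hs (WO.nb' (0 : X) F δ) h0 (by simp)
    (u + (t : 𝕜) • a) hκ0
  obtain ⟨f, hf, hfv⟩ := exists_dual_vector'' 𝕜 (u + (t : 𝕜) • a + θ • b)
  have hθb : ‖θ • b‖ ≤ 1 := by rw [norm_smul, hθ, one_mul]; exact hb1
  have e0 : RCLike.re (f (u + (t : 𝕜) • a)) + RCLike.re (f (θ • b)) =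
      ‖u + (t : 𝕜) • a + θ • b‖ := by
    have := congrArg RCLike.re hfv
    rwa [map_add, map_add, RCLike.ofReal_re] at this
  have e1 := re_le_one hf hθb
  have e2 := re_le_norm' hf (u + (t : 𝕜) • a)
  obtain ⟨e3, e4⟩ := extend hf₀ hf ht0 (ε := κ) hf₀u ha1 (by linarith)
  rw [hκd] at e4
  have hn1 : ‖(α : 𝕜)‖ = α := by rw [RCLike.norm_ofReal, abs_of_nonneg (by linarith)]
  have hn2 : ‖((1 - α : ℝ) : 𝕜)‖ = 1 - α := by rw [RCLike.norm_ofReal, abs_of_nonneg (by linarith)]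
  have hy : (α : 𝕜) • a + ((1 - α : ℝ) : 𝕜) • (θ • b) ∈ nb ((α : 𝕜) • z₁) F δ := by
    intro g hg
    have e : g ((α : 𝕜) • a + ((1 - α : ℝ) : 𝕜) • (θ • b)) - g ((α : 𝕜) • z₁) =
        (α : 𝕜) * (g a - g z₁) + ((1 - α : ℝ) : 𝕜) * (θ * (g b - g 0)) := by
      simp only [map_add, map_smul, smul_eq_mul, map_zero]
      ring
    rw [e]
    refine (norm_add_le _ _).trans_lt ?_
    rw [norm_mul, norm_mul, norm_mul, hn1, hn2, hθ, one_mul]
    have h5 := ha g hg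
    have h6 := hb g hg
    nlinarith
  have hy1 : ‖(α : 𝕜) • a + ((1 - α : ℝ) : 𝕜) • (θ • b)‖ ≤ 1 := by
    refine (norm_add_le _ _).trans ?_
    rw [norm_smul, norm_smul, hn1, hn2]
    nlinarith [norm_nonneg a, norm_nonneg (θ • b)]
  have h7 := hB f hf (by linarith) _ hy hy1
  rw [map_add, map_add, re_smul_cast, re_smul_cast] at h7
  have h8 : 1 - κ ≤ RCLike.re (f (θ • b)) := by linarith
  have h9 : c + ξ - min ξ 1 / 8 ≤ RCLike.re (f a) := by linarith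
  nlinarith

end

lemma le_one_of_sq {a b : ℝ} (h : a ^ 2 + b ^ 2 ≤ 1) : -1 ≤ a ∧ a ≤ 1 := by
  have h1 : a ^ 2 ≤ 1 := by linarith [sq_nonneg b]
  exact abs_le.1 ((sq_le_one_iff_abs_le_one a).1 h1)

lemma one_sub_le {a b : ℝ} (ha : 0 ≤ a) (h : a ^ 2 + b ^ 2 = 1) : 1 - a ≤ b ^ 2 ∧ a ≤ 1 := by
  have h1 := le_one_of_sq h.le
  refine ⟨?_, h1.2⟩
  nlinarith [mul_nonneg ha (sub_nonneg.2 h1.2)]

/-- elementary estimate for numbers of modulus nearly one -/
lemma pq {p q c s e α β α' β' η : ℝ} (hs0 : 0 < s) (hs1 : s ≤ 1) (hcs : c ^ 2 + s ^ 2 ≤ 1)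
    (hpq : p ^ 2 + q ^ 2 ≤ 1) (hη : η ≤ s ^ 2 / 8)
    (hpq' : (1 - η) ^ 2 ≤ p ^ 2 + q ^ 2) (he0 : 0 ≤ e) (hp : p ≤ c + e) (hα' : 0 ≤ α')
    (h' : α' ^ 2 + β' ^ 2 = 1) (hα : 0 ≤ α) (h : α ^ 2 + β ^ 2 = 1) (hβ : 0 < β)
    (hβs : β ≤ s / 8) (hβ' : β' = β * s / 32) (he : e ≤ β * s ^ 2 / 200)
    (hω : c - e ≤ α' * p + β' * q) : c + β * s / 4 ≤ α * p + β * q := by
  have hβ'0 : 0 < β' := by rw [hβ']; positivity
  obtain ⟨ha2, ha1⟩ := one_sub_le hα h
  obtain ⟨ha2', ha1'⟩ := one_sub_le hα' h'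
  obtain ⟨hp2, hp1⟩ := le_one_of_sq hpq
  obtain ⟨hq2, hq1⟩ := le_one_of_sq (a := q) (b := p) (by linarith)
  obtain ⟨hc2, hc1⟩ := le_one_of_sq hcs
  have hs2 : 0 < s ^ 2 := by positivity
  have hbs0 : 0 < β * s := by positivity
  have hbs2 : 0 < β * s ^ 2 := by positivity
  have hss : s ^ 2 ≤ s := by
    have := mul_le_mul_of_nonneg_left hs1 hs0.le
    linarith [sq s, this]
  have hbs : β * s ≤ s ^ 2 / 8 := by
    have := mul_le_mul_of_nonneg_right hβs hs0.le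
    have e1 : s / 8 * s = s ^ 2 / 8 := by ring
    linarith
  have hbss : β * s ^ 2 ≤ β * s := mul_le_mul_of_nonneg_left hss hβ.le
  have hβ'1 : β' ≤ 1 := by rw [hβ']; linarith
  have hb2 : β' ^ 2 ≤ β' := by
    have := mul_le_mul_of_nonneg_left hβ'1 hβ'0.le
    linarith [sq β', this]
  have hp3 : c - e - 2 * β' ≤ p := by
    have h1 : 0 ≤ (1 - α') * (p + 1) := mul_nonneg (by linarith) (by linarith)
    have h2 : β' * q ≤ β' * 1 := mul_le_mul_of_nonneg_left hq1 hβ'0.le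
    have h3 : (1 - α') * (p + 1) = p - α' * p + (1 - α') := by ring
    linarith
  -- lower bound for `q ^ 2`
  have he4 : e + 2 * β' ≤ s ^ 2 / 100 := by
    rw [hβ']
    linarith
  have hq2 : s ^ 2 / 4 ≤ q ^ 2 := by
    have h1 : p ^ 2 ≤ c ^ 2 + 2 * (e + 2 * β') := by
      have h2 : (p - c) * (p + c) ≤ 2 * (e + 2 * β') := by
        have h4 : (e + 2 * β' - (p - c)) * (2 + (p + c)) ≥ 0 :=
          mul_nonneg (by linarith) (by linarith)
        have h5 : (e + 2 * β' + (p - c)) * (2 - (p + c)) ≥ 0 :=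
          mul_nonneg (by linarith) (by linarith)
        have h6 : (e + 2 * β' - (p - c)) * (2 + (p + c)) + (e + 2 * β' + (p - c)) * (2 - (p + c))
          = 4 * (e + 2 * β') - 2 * ((p - c) * (p + c)) := by ring
        linarith
      have h3 : (p - c) * (p + c) = p ^ 2 - c ^ 2 := by ring
      linarith
    have h2 : (1 - η) ^ 2 = 1 - 2 * η + η ^ 2 := by ring
    linarith [sq_nonneg η]
  have h5 : β' ^ 2 ≤ β * s ^ 2 / 8192 := by
    have h7 : β' ^ 2 = β * s ^ 2 * β / 1024 := by rw [hβ']; ring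
    have h8 : β * s ^ 2 * β ≤ β * s ^ 2 * (1 / 8) :=
      mul_le_mul_of_nonneg_left (by linarith) hbs2.le
    linarith
  have hqn : ¬ q ≤ -(s / 2) := by
    intro hq
    have h1 : α' * p ≤ α' * (c + e) := mul_le_mul_of_nonneg_left hp hα'
    have h2 : 0 ≤ (1 - α') * (c + 1) := mul_nonneg (by linarith) (by linarith)
    have h2' : 0 ≤ (1 - α') * e := mul_nonneg (by linarith) he0
    have h3 : -(β' ^ 2) - 2 * e ≤ β' * q := by
      have e1 : α' * (c + e) = c + e - ((1 - α') * (c + 1) - (1 - α')) - (1 - α') * e := by ring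
      linarith
    have h4 : β' * q ≤ β' * -(s / 2) := mul_le_mul_of_nonneg_left hq hβ'0.le
    have h6 : β' * -(s / 2) = -(β * s ^ 2 / 64) := by rw [hβ']; ring
    linarith
  have hq3 : s / 2 ≤ q := by
    by_contra hcon
    push Not at hcon hqn
    have h1 : |q| < s / 2 := abs_lt.2 ⟨hqn, hcon⟩
    have h2 : q ^ 2 < (s / 2) ^ 2 := by
      rw [← sq_abs q]
      exact pow_lt_pow_left₀ h1 (abs_nonneg q) (by norm_num)
    have h3 : (s / 2) ^ 2 = s ^ 2 / 4 := by ring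
    linarith
  have h1 : c - β ^ 2 - (e + 2 * β') ≤ α * p := by
    have h2 : α * (c - (e + 2 * β')) ≤ α * p := mul_le_mul_of_nonneg_left (by linarith) hα
    have h3 : α * (e + 2 * β') ≤ 1 * (e + 2 * β') :=
      mul_le_mul_of_nonneg_right ha1 (by linarith)
    have h4 : 0 ≤ (1 - α) * (1 - c) := mul_nonneg (by linarith) (by linarith)
    have e1 : α * (c - (e + 2 * β')) = α * c - α * (e + 2 * β') := by ring
    have e2 : (1 - α) * (1 - c) = (1 - α) - c + α * c := by ring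
    have e3 : c - β ^ 2 ≤ α * c := by linarith
    linarith
  have h2 : β * (s / 2) ≤ β * q := mul_le_mul_of_nonneg_left hq3 hβ.le
  have h3 : β ^ 2 ≤ β * s / 8 := by
    have := mul_le_mul_of_nonneg_left hβs hβ.le
    have e1 : β * (s / 8) = β * s / 8 := by ring
    have e2 : β * β = β ^ 2 := by ring
    linarith
  have h4 : e + 2 * β' ≤ β * s * (27 / 400) := by
    rw [hβ']
    linarith
  have e4 : β * (s / 2) = β * s / 2 := by ring
  linarith

end Pool.Agent.MP_0d3a63_an
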