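import Pool.Agent.MP_0d3a63_an.Gap

/-!
The complex case: the penalty argument.
-/

set_option autoImplicit false

open Set
open scoped Pointwise ComplexConjugate

namespace Pool.Agent.MP_0d3a63_an

variable {X : Type*} [NormedAddCommGroup X] [NormedSpace ℂ X]

theorem complex_unbounded (hdim : ¬ FiniteDimensional ℂ X) (hs : SuperADP ℂ X)
    (hr : StronglyRegular ℂ X) (u : X) (U : Set X) (hU : WO ℂ U) (hz : ∃ z ∈ U, ‖z‖ ≤ 1)
    (c₀ : ℝ) (hc₀ : c₀ < 1) : ¬ Bd ℂ u U c₀ := by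
  intro hB
  obtain ⟨z', hz', hz'1⟩ := hz
  obtain ⟨z₀, hz₀, hz₀1⟩ := exists_lt_one hU hz' hz'1
  obtain ⟨F₀, δ₀, hδ₀, hF₀⟩ := hU.basic hz₀
  have hB₀ : Bd ℂ u (nb z₀ F₀ δ₀) c₀ := hB.mono hF₀ le_rfl
  set r₀ : ℝ := ‖z₀‖ with hr₀
  have hr₀0 : 0 ≤ r₀ := norm_nonneg _
  have h1r : 0 < 1 - r₀ := by linarith
  set Λ : ℝ := 8 / (1 - r₀) with hΛ
  have hΛ8 : 8 ≤ Λ := by rw [hΛ, le_div_iff₀ h1r]; linarith
  have hΛ0 : 0 < Λ := by linarith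
  have hΛr : Λ * (1 - r₀) = 8 := by rw [hΛ]; field_simp
  -- the admissible values
  set 𝒱 : Set ℝ := {v | ∃ (u z : X) (F : Finset (X →L[ℂ] ℂ)) (δ c : ℝ), 0 < δ ∧ ‖z‖ < 1 ∧
    Bd ℂ u (nb z F δ) c ∧ v = c + Λ * max 0 (‖z‖ - r₀)} with h𝒱
  have hself : ∀ (z : X) (F : Finset (X →L[ℂ] ℂ)) (δ : ℝ), 0 < δ → z ∈ nb z F δ := by
    intro z F δ hδ g _
    simpa using hδ
  have hge : ∀ (u z : X) (F : Finset (X →L[ℂ] ℂ)) (δ c : ℝ), 0 < δ → ‖z‖ < 1 →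
      Bd ℂ u (nb z F δ) c → -‖z‖ ≤ c := fun u z F δ c hδ hz1 hB =>
    hB.ge (hself z F δ hδ) hz1.le
  have hbdd : BddBelow 𝒱 := by
    refine ⟨-1, ?_⟩
    rintro v ⟨u, z, F, δ, c, hδ, hz1, hB, rfl⟩
    have h1 := hge u z F δ c hδ hz1 hB
    have h2 : 0 ≤ Λ * max 0 (‖z‖ - r₀) := mul_nonneg hΛ0.le (le_max_left _ _)
    linarith
  have hmem : c₀ ∈ 𝒱 := ⟨u, z₀, F₀, δ₀, c₀, hδ₀, hz₀1, hB₀, by simp [hr₀]⟩
  -- constants
  set M : ℝ := max ((1 + r₀) / 2) ((1 + c₀) / 2) with hM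
  have hM1 : (1 + r₀) / 2 ≤ M := le_max_left _ _
  have hM2 : (1 + c₀) / 2 ≤ M := le_max_right _ _
  have hM3 : M < 1 := max_lt (by linarith) (by linarith)
  have hM0 : 0 < M := by linarith
  set s : ℝ := 1 - M with hs'
  have hs0 : 0 < s := by linarith
  have hs1 : s ≤ 1 := by linarith
  have hs2 : s ^ 2 ≤ s := by
    have h := mul_le_mul_of_nonneg_left hs1 hs0.le
    rw [mul_one, ← sq] at h
    exact h
  set β : ℝ := s ^ 2 / (1600 * Λ) with hβ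
  have hβ0 : 0 < β := by positivity
  have hβΛ : β * Λ = s ^ 2 / 1600 := by rw [hβ]; field_simp
  have hβ1 : β ≤ s ^ 2 / 12800 := by
    rw [hβ]
    apply div_le_div_of_nonneg_left (by positivity) (by norm_num)
    linarith
  have hβs : β ≤ s / 8 := by linarith
  have hβ2 : β ≤ 1 := by linarith
  set e : ℝ := β * s ^ 2 / 200 with he
  have he0 : 0 < e := by positivity
  have heβ : e ≤ β / 200 := by
    have h : β * s ^ 2 ≤ β * 1 := mul_le_mul_of_nonneg_left (by linarith) hβ0.le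
    rw [he]; linarith
  set α : ℝ := Real.sqrt (1 - β ^ 2) with hα
  have hα0 : 0 ≤ α := Real.sqrt_nonneg _
  have hαβ : α ^ 2 + β ^ 2 = 1 := by
    have h : β ^ 2 ≤ 1 := pow_le_one₀ hβ0.le hβ2
    rw [hα, Real.sq_sqrt (by linarith)]; ring
  obtain ⟨hα1, hα2⟩ := one_sub_le hα0 hαβ
  have hββ : β ^ 2 ≤ β / 2 := by
    have h : β * β ≤ β * (1 / 2) := mul_le_mul_of_nonneg_left (by linarith) hβ0.le
    rw [sq]; linarith
  have hα3 : 1 / 2 ≤ α := by linarith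
  have hαpos : 0 < α := by linarith
  have hαi : α⁻¹ - 1 ≤ 2 * β ^ 2 := by
    have : α⁻¹ - 1 = (1 - α) / α := by field_simp
    have h : β ^ 2 * 1 ≤ β ^ 2 * (2 * α) := mul_le_mul_of_nonneg_left (by linarith) (sq_nonneg β)
    rw [this, div_le_iff₀ hαpos]
    linarith
  have hαi0 : 0 ≤ α⁻¹ - 1 := by
    have := (one_le_inv₀ hαpos).2 hα2
    linarith
  have hΛα : Λ * (α⁻¹ - 1) ≤ e / 4 := by
    have h1 : Λ * (α⁻¹ - 1) ≤ Λ * (2 * β ^ 2) := mul_le_mul_of_nonneg_left hαi hΛ0.le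
    have h2 : Λ * (2 * β ^ 2) = e / 4 := by
      have : Λ * (2 * β ^ 2) = 2 * β * (β * Λ) := by ring
      rw [this, hβΛ, he]; ring
    linarith
  -- a nearly optimal configuration
  obtain ⟨v, ⟨u₁, z, F, δ, c, hδ, hz1, hB₁, rfl⟩, hv⟩ :=
    exists_lt_of_csInf_lt ⟨c₀, hmem⟩ (lt_add_of_pos_right (sInf 𝒱) (by positivity : 0 < e / 4))
  have hinf : sInf 𝒱 ≤ c₀ := csInf_le hbdd hmem
  have hpen : 0 ≤ Λ * max 0 (‖z‖ - r₀) := mul_nonneg hΛ0.le (le_max_left _ _)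
  have hcz := hge u₁ z F δ c hδ hz1 hB₁
  have hcM : c ≤ M := by
    have : c < c₀ + e / 4 := by linarith
    have h2 : e / 4 ≤ (1 - c₀) / 2 := by linarith
    linarith
  have hzr : ‖z‖ < (1 + r₀) / 2 := by
    by_contra hcon
    push Not at hcon
    have h1 : (1 - r₀) / 2 ≤ max 0 (‖z‖ - r₀) := by
      refine le_trans ?_ (le_max_right _ _)
      linarith
    have h2 : Λ * ((1 - r₀) / 2) ≤ Λ * max 0 (‖z‖ - r₀) := mul_le_mul_of_nonneg_left h1 hΛ0.le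
    linarith
  have hcM' : -M ≤ c := by linarith
  have hcs : c ^ 2 + s ^ 2 ≤ 1 := by
    have h1 : c ^ 2 ≤ M ^ 2 := sq_le_sq' hcM' hcM
    have h2 : M ^ 2 + s ^ 2 = 1 - 2 * (M * s) := by rw [hs']; ring
    have h3 : 0 < M * s := by positivity
    linarith
  -- the rotated and enlarged point
  set z₁ : X := ((α⁻¹ : ℝ) : ℂ) • z with hz₁
  have hz₁z : (α : ℂ) • z₁ = z := by
    rw [hz₁, smul_smul, ← Complex.ofReal_mul, mul_inv_cancel₀ hαpos.ne', Complex.ofReal_one,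
      one_smul]
  have hz₁n : ‖z₁‖ = α⁻¹ * ‖z‖ := by
    rw [hz₁, norm_smul, Complex.norm_real, Real.norm_eq_abs, abs_of_pos (inv_pos.2 hαpos)]
  have hz₁1 : ‖z₁‖ < 1 := by
    rw [hz₁n, inv_mul_lt_iff₀ hαpos]
    linarith
  refine gap hdim hs hr (u := u₁) (z₁ := z₁) (F := F) (δ := δ) (c := c)
    (c' := c - Λ * (α⁻¹ - 1) - e / 4) (s := s) (e := e) (α := α) (β := β) hδ hs0 hs1 hcs hα3 hαβ
    hβ0 hβs rfl (by linarith) (by rw [hz₁z]; exact hB₁) ?_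
  intro u' ω hω hBd
  have hωz : ‖ω • z₁‖ = α⁻¹ * ‖z‖ := by rw [norm_smul, hω, one_mul, hz₁n]
  have h1 : c - Λ * (α⁻¹ - 1) - e / 4 + Λ * max 0 (‖ω • z₁‖ - r₀) ∈ 𝒱 :=
    ⟨u', ω • z₁, F, δ, _, hδ, by rw [norm_smul, hω, one_mul]; exact hz₁1, hBd, rfl⟩
  have h2 := csInf_le hbdd h1
  have h3 : max 0 (‖ω • z₁‖ - r₀) ≤ max 0 (‖z‖ - r₀) + (α⁻¹ - 1) := by
    have h4 : α⁻¹ * ‖z‖ ≤ ‖z‖ + (α⁻¹ - 1) := by
      have h := mul_nonneg hαi0 (sub_nonneg.2 hz1.le)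
      have h' : (α⁻¹ - 1) * (1 - ‖z‖) = ‖z‖ + (α⁻¹ - 1) - α⁻¹ * ‖z‖ := by ring
      linarith
    refine max_le ?_ ?_
    · have := le_max_left 0 (‖z‖ - r₀)
      linarith
    · have := le_max_right 0 (‖z‖ - r₀)
      rw [hωz]
      linarith
  have h5 : Λ * max 0 (‖ω • z₁‖ - r₀) ≤ Λ * max 0 (‖z‖ - r₀) + Λ * (α⁻¹ - 1) := by
    rw [← mul_add]
    exact mul_le_mul_of_nonneg_left h3 hΛ0.le
  linarith

end Pool.Agent.MP_0d3a63_an
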