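import Mathlib

/-!
Slices, strong regularity and the super alternative Daugavet property.
-/

set_option autoImplicit false

open Set
open scoped Pointwise

namespace Pool.Agent.MP_0d3a63_an

/-- `S` is a slice of `C`: the nonempty set of the points of `C` at which the real part of `g` is
larger than `sup_C (re g) - a`, for some continuous linear functional `g ≠ 0` and some `a > 0`. -/
def IsSlice (𝕜 : Type*) [RCLike 𝕜] {X : Type*} [NormedAddCommGroup X] [NormedSpace 𝕜 X]
    (C S : Set X) : Prop :=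
  ∃ (g : X →L[𝕜] 𝕜) (a m : ℝ), g ≠ 0 ∧ 0 < a ∧ IsLUB ((fun y => RCLike.re (g y)) '' C) m ∧
    S = {y | y ∈ C ∧ m - a < RCLike.re (g y)} ∧ S.Nonempty

/-- `X` is strongly regular: each nonempty closed bounded convex set has convex combinations of
slices of arbitrarily small diameter. -/
def StronglyRegular (𝕜 : Type*) [RCLike 𝕜] (X : Type*) [NormedAddCommGroup X] [NormedSpace 𝕜 X]
    [NormedSpace ℝ X] : Prop :=
  ∀ C : Set X, C.Nonempty → IsClosed C → Bornology.IsBounded C → Convex ℝ C →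
    ∀ ε : ℝ, 0 < ε → ∃ (n : ℕ) (S : Fin n → Set X) (w : Fin n → ℝ),
      (∀ i, IsSlice 𝕜 C (S i)) ∧ (∀ i, 0 ≤ w i) ∧ ∑ i, w i = 1 ∧
      Metric.diam (∑ i, w i • S i) < ε

/-- `X` has the super alternative Daugavet property: for each `x` of norm one and each relatively
weakly open subset `W` of the closed unit ball that meets the unit sphere, the supremum of
`‖x + θ y‖` over `y ∈ W` and `|θ| = 1` is `2`. -/
def SuperADP (𝕜 : Type*) [RCLike 𝕜] (X : Type*) [NormedAddCommGroup X] [NormedSpace 𝕜 X] : Prop :=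
  ∀ x : X, ‖x‖ = 1 → ∀ W : Set X,
    (∃ U : Set (WeakSpace 𝕜 X), IsOpen U ∧
      W = {y | y ∈ Metric.closedBall (0 : X) 1 ∧ toWeakSpace 𝕜 X y ∈ U}) →
    (W ∩ Metric.sphere (0 : X) 1).Nonempty →
    IsLUB {r : ℝ | ∃ y ∈ W, ∃ θ : 𝕜, ‖θ‖ = 1 ∧ r = ‖x + θ • y‖} 2

end Pool.Agent.MP_0d3a63_an
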