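import Pool.Agent.MP_0d3a63_an.Cplx

/-!
The complex case: the gap of the reachable values closes.
-/

set_option autoImplicit false

open Set
open scoped Pointwise ComplexConjugate

namespace Pool.Agent.MP_0d3a63_an

variable {X : Type*} [NormedAddCommGroup X] [NormedSpace ℂ X]

lemma nb_rot {z y : X} {F : Finset (X →L[ℂ] ℂ)} {δ : ℝ} {ω ω' : ℂ} (hω : ‖ω‖ = 1)
    (h : ω * ω' = 1) (hy : y ∈ nb (ω' • z) F δ) : ω • y ∈ nb z F δ := by
  intro g hg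
  have e : g (ω • y) - g z = ω * (g y - g (ω' • z)) := by
    rw [map_smul, map_smul, smul_eq_mul, smul_eq_mul, mul_sub, ← mul_assoc, h, one_mul]
  rw [e, norm_mul, hω, one_mul]
  exact hy g hg

lemma normSq_eq' (k : ℂ) : ‖k‖ ^ 2 = k.re ^ 2 + k.im ^ 2 := by
  rw [Complex.sq_norm, Complex.normSq_apply]; ring

lemma app2 (f : X →L[ℂ] ℂ) (a b : ℂ) (y : X) : f (a • b • y) = a * (b * f y) := by simp

theorem gap (hdim : ¬ FiniteDimensional ℂ X) (hs : SuperADP ℂ X) (hr : StronglyRegular ℂ X)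
    {u z₁ : X} {F : Finset (X →L[ℂ] ℂ)} {δ c c' s e α β : ℝ} (hδ : 0 < δ)
    (hs0 : 0 < s) (hs1 : s ≤ 1) (hcs : c ^ 2 + s ^ 2 ≤ 1) (hα : 1 / 2 ≤ α)
    (hαβ : α ^ 2 + β ^ 2 = 1) (hβ : 0 < β) (hβs : β ≤ s / 8) (he : e = β * s ^ 2 / 200)
    (hc' : c - e / 2 ≤ c') (hB : Bd ℂ u (nb ((α : ℂ) • z₁) F δ) c)
    (hlow : ∀ (u' : X) (ω : ℂ), ‖ω‖ = 1 → ¬ Bd ℂ u' (nb (ω • z₁) F δ) c') : False := by
  have he0 : 0 < e := by rw [he]; positivity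
  have hα1 : α ≤ 1 := (one_sub_le (by linarith) hαβ).2
  have hc1 : c ≤ 1 := (le_one_of_sq hcs).2
  obtain ⟨η₁, hη₁, hB₁⟩ := ray hdim hs hδ hα hα1 hc1 he0 hB
  obtain ⟨η₀, hη₀, hB₀⟩ := hB
  -- the small rotation
  set β' : ℝ := β * s / 32 with hβ'
  have hβ'0 : 0 < β' := by positivity
  have hβ'1 : β' ≤ 1 := by rw [hβ']; nlinarith
  set α' : ℝ := Real.sqrt (1 - β' ^ 2) with hα'
  have hα'0 : 0 ≤ α' := Real.sqrt_nonneg _
  have hα'β' : α' ^ 2 + β' ^ 2 = 1 := by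
    rw [hα', Real.sq_sqrt (by nlinarith)]; ring
  set ζ : ℂ := ⟨α, β⟩ with hζ
  set ω : ℂ := ⟨α', β'⟩ with hω
  have hζn : ‖ζ‖ = 1 := by
    have h : ‖ζ‖ ^ 2 = 1 := by rw [normSq_eq', hζ]; exact hαβ
    exact (pow_eq_one_iff_of_nonneg (norm_nonneg ζ) two_ne_zero).1 h
  have hωn : ‖ω‖ = 1 := by
    have h : ‖ω‖ ^ 2 = 1 := by rw [normSq_eq', hω]; exact hα'β'
    exact (pow_eq_one_iff_of_nonneg (norm_nonneg ω) two_ne_zero).1 h
  have hωc : ω * conj ω = 1 := by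
    rw [Complex.mul_conj, Complex.normSq_eq_norm_sq, hωn]; simp
  have hωc' : conj ω * ω = 1 := by rw [mul_comm]; exact hωc
  have hωn' : ‖conj ω‖ = 1 := by rw [RCLike.norm_conj]; exact hωn
  have hζn' : ‖conj ζ‖ = 1 := by rw [RCLike.norm_conj]; exact hζn
  set χ : ℝ := β * s / 4 with hχ
  have hχ0 : 0 < χ := by positivity
  -- the parameters
  set t : ℝ := min η₀ η₁ / 8 with ht
  have hm : 0 < min η₀ η₁ := lt_min hη₀ hη₁
  have ht0 : 0 < t := by positivity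
  have ht1 : t ≤ η₀ / 8 := by rw [ht]; linarith [min_le_left η₀ η₁]
  have ht2 : t ≤ η₁ / 8 := by rw [ht]; linarith [min_le_right η₀ η₁]
  set κ : ℝ := min (min t (e / 2)) (min (s ^ 2 / 8) (χ * t / 4)) with hκ
  have hκ0 : 0 < κ := by
    refine lt_min (lt_min ht0 (by positivity)) (lt_min (by positivity) (by positivity))
  have hκ1 : κ ≤ t := (min_le_left _ _).trans (min_le_left _ _)
  have hκ2 : κ ≤ e / 2 := (min_le_left _ _).trans (min_le_right _ _)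
  have hκ3 : κ ≤ s ^ 2 / 8 := (min_le_right _ _).trans (min_le_left _ _)
  have hκ4 : κ ≤ χ * t / 4 := (min_le_right _ _).trans (min_le_right _ _)
  have hκt : (κ + κ) / t ≤ χ / 2 := by
    rw [div_le_iff₀ ht0]; linarith
  have hs2 : s ^ 2 / 8 ≤ 1 := by nlinarith
  -- modulus bounds
  have hmod : ∀ (f : X →L[ℂ] ℂ) (y : X), ‖f‖ ≤ 1 → ‖y‖ ≤ 1 → 1 - κ ≤ ‖f y‖ → ∀ ρ : ℂ, ‖ρ‖ = 1 →
      (ρ * f y).re ^ 2 + (ρ * f y).im ^ 2 ≤ 1 ∧
      (1 - κ) ^ 2 ≤ (ρ * f y).re ^ 2 + (ρ * f y).im ^ 2 := by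
    intro f y hf hy h1 ρ hρ
    have h2 : ‖ρ * f y‖ = ‖f y‖ := by rw [norm_mul, hρ, one_mul]
    have h3 : ‖f y‖ ≤ 1 := (f.le_of_opNorm_le hf y).trans (by linarith)
    rw [← normSq_eq', h2]
    constructor
    · exact pow_le_one₀ (norm_nonneg _) h3
    · exact pow_le_pow_left₀ (by linarith) h1 2
  -- first point
  obtain ⟨f₁, y₁, hf₁, hf₁u, hy₁, hy₁1, hm₁, hr₁⟩ := key hdim hs hr (WO.nb' (conj ω • z₁) F δ)
    (convex_nb _ _ _) (hlow u (conj ω) hωn') hκ0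
  have ha₁ : ω • y₁ ∈ nb z₁ F δ := nb_rot hωn hωc hy₁
  have ha₁1 : ‖ω • y₁‖ ≤ 1 := by rw [norm_smul, hωn, one_mul]; exact hy₁1
  have hup₁ := hB₁ f₁ hf₁ (by linarith) _ ha₁ ha₁1
  rw [map_smul, smul_eq_mul] at hup₁
  obtain ⟨hm₁', hm₁''⟩ := hmod f₁ y₁ hf₁ hy₁1 hm₁ ω hωn
  have hval₁ : c + β * s / 4 ≤ α * (ω * f₁ y₁).re + β * (ω * f₁ y₁).im := by
    refine pq hs0 hs1 hcs hm₁' hκ3 hm₁'' he0.le hup₁ hα'0 hα'β' (by linarith) hαβ hβ hβs rfl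
      he.le ?_
    have e1 : α' * (ω * f₁ y₁).re + β' * (ω * f₁ y₁).im = (f₁ y₁).re := by
      have e2 : conj ω * (ω * f₁ y₁) = f₁ y₁ := by rw [← mul_assoc, hωc', one_mul]
      have e3 := congrArg Complex.re e2
      rw [Complex.mul_re, Complex.conj_re, Complex.conj_im] at e3
      rw [← e3]
      have e4 : ω.re = α' := rfl
      have e5 : ω.im = β' := rfl
      rw [e4, e5]; ring
    rw [e1]
    have : c' - κ ≤ (f₁ y₁).re := hr₁
    linarith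
  set v₁ : X := conj ζ • ω • y₁ with hv₁
  have hv₁1 : ‖v₁‖ ≤ 1 := by rw [hv₁, norm_smul, hζn', one_mul]; exact ha₁1
  have hv₁r : c + χ ≤ RCLike.re (f₁ v₁) := by
    rw [hv₁, app2]
    have e1 : RCLike.re (conj ζ * (ω * f₁ y₁)) =
        α * (ω * f₁ y₁).re + β * (ω * f₁ y₁).im := by
      rw [RCLike.re_eq_complex_re, Complex.mul_re, Complex.conj_re, Complex.conj_im]
      have e4 : ζ.re = α := rfl
      have e5 : ζ.im = β := rfl
      rw [e4, e5]; ring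
    rw [e1]
    exact hval₁
  -- second point
  obtain ⟨f₂, y₂, hf₂, hf₂u, hy₂, hy₂1, hm₂, hr₂⟩ := key hdim hs hr (WO.nb' (ω • z₁) F δ)
    (convex_nb _ _ _) (hlow (u + (t : ℂ) • v₁) ω hωn) hκ0
  obtain ⟨e1, e2⟩ := extend hf₁ hf₂ ht0 hf₁u hv₁1 hf₂u
  have ha₂ : conj ω • y₂ ∈ nb z₁ F δ := nb_rot hωn' hωc' hy₂
  have ha₂1 : ‖conj ω • y₂‖ ≤ 1 := by rw [norm_smul, hωn', one_mul]; exact hy₂1
  have hup₂ := hB₁ f₂ hf₂ (by linarith) _ ha₂ ha₂1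
  rw [map_smul, smul_eq_mul] at hup₂
  obtain ⟨hm₂', hm₂''⟩ := hmod f₂ y₂ hf₂ hy₂1 hm₂ (conj ω) hωn'
  have hval₂ : c + β * s / 4 ≤ α * (conj ω * f₂ y₂).re + β * -(conj ω * f₂ y₂).im := by
    refine pq (q := -(conj ω * f₂ y₂).im) hs0 hs1 hcs (by rw [neg_sq]; exact hm₂') hκ3
      (by rw [neg_sq]; exact hm₂'') he0.le hup₂ hα'0 hα'β' (by linarith) hαβ hβ hβs rfl he.le ?_
    have e1 : α' * (conj ω * f₂ y₂).re + β' * -(conj ω * f₂ y₂).im = (f₂ y₂).re := by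
      have e2 : ω * (conj ω * f₂ y₂) = f₂ y₂ := by rw [← mul_assoc, hωc, one_mul]
      have e3 := congrArg Complex.re e2
      rw [Complex.mul_re] at e3
      rw [← e3]
      have e4 : ω.re = α' := rfl
      have e5 : ω.im = β' := rfl
      rw [e4, e5]; ring
    rw [e1]
    have : c' - κ ≤ (f₂ y₂).re := hr₂
    linarith
  set v₂ : X := ζ • conj ω • y₂ with hv₂
  have hv₂1 : ‖v₂‖ ≤ 1 := by rw [hv₂, norm_smul, hζn, one_mul]; exact ha₂1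
  have hv₂r : c + χ ≤ RCLike.re (f₂ v₂) := by
    rw [hv₂, app2]
    have e1 : RCLike.re (ζ * (conj ω * f₂ y₂)) =
        α * (conj ω * f₂ y₂).re + β * -(conj ω * f₂ y₂).im := by
      rw [RCLike.re_eq_complex_re, Complex.mul_re]
      have e4 : ζ.re = α := rfl
      have e5 : ζ.im = β := rfl
      rw [e4, e5]; ring
    rw [e1]
    exact hval₂
  -- the midpoint
  have hy : ((1 / 2 : ℝ) : ℂ) • (v₁ + v₂) ∈ nb ((α : ℂ) • z₁) F δ := by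
    intro g hg
    have hζs : conj ζ + ζ = 2 * (α : ℂ) := by
      apply Complex.ext
      · simp [hζ]; ring
      · simp [hζ]
    have e : g (((1 / 2 : ℝ) : ℂ) • (v₁ + v₂)) - g ((α : ℂ) • z₁) =
        ((1 / 2 : ℝ) : ℂ) * (conj ζ * (g (ω • y₁) - g z₁) + ζ * (g (conj ω • y₂) - g z₁)) := by
      have : (α : ℂ) = ((1 / 2 : ℝ) : ℂ) * (conj ζ + ζ) := by rw [hζs]; push_cast; ring
      rw [this, hv₁, hv₂, map_smul, map_add, map_smul g (conj ζ), map_smul g ζ, map_smul g _ z₁]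
      simp only [smul_eq_mul]
      ring
    rw [e, norm_mul]
    have h1 : ‖conj ζ * (g (ω • y₁) - g z₁) + ζ * (g (conj ω • y₂) - g z₁)‖ < δ + δ := by
      refine (norm_add_le _ _).trans_lt ?_
      rw [norm_mul, norm_mul, hζn, hζn', one_mul, one_mul]
      exact add_lt_add (ha₁ g hg) (ha₂ g hg)
    have h2 : ‖((1 / 2 : ℝ) : ℂ)‖ = 1 / 2 := by
      rw [Complex.norm_real]; norm_num
    rw [h2]
    linarith
  have hy1 : ‖((1 / 2 : ℝ) : ℂ) • (v₁ + v₂)‖ ≤ 1 := by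
    rw [norm_smul, Complex.norm_real]
    have := norm_add_le v₁ v₂
    norm_num
    linarith
  have hfin := hB₀ f₂ hf₂ (by linarith) _ hy hy1
  have e3 := re_smul_cast f₂ (1 / 2) (v₁ + v₂)
  rw [map_add, map_add] at e3
  have e4 : RCLike.re (f₂ (((1 / 2 : ℝ) : ℂ) • (v₁ + v₂))) =
      1 / 2 * (RCLike.re (f₂ v₁) + RCLike.re (f₂ v₂)) := e3
  rw [e4] at hfin
  linarith

end Pool.Agent.MP_0d3a63_an
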