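import Pool.Agent.MP_0d3a63_an.Basic

/-!
Main consequence of strong regularity: near-unimodular values.
-/

set_option autoImplicit false

open Set
open scoped Pointwise

namespace Pool.Agent.MP_0d3a63_an

variable {𝕜 : Type*} [RCLike 𝕜] {X : Type*} [NormedAddCommGroup X] [NormedSpace 𝕜 X]

/-- a weakly open set meeting the ball of an infinite-dimensional space meets the sphere -/
lemma exists_sphere (hdim : ¬ FiniteDimensional 𝕜 X) {U : Set X} (hU : WO 𝕜 U) {z : X}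
    (hz : z ∈ U) (hz1 : ‖z‖ ≤ 1) : ∃ y ∈ U, ‖y‖ = 1 := by
  obtain ⟨F, δ, hδ, hF⟩ := hU.basic hz
  have h1 : ∃ v : X, v ≠ 0 ∧ ∀ g ∈ F, g v = 0 := by
    by_contra hcon
    push Not at hcon
    apply hdim
    let L : X →ₗ[𝕜] (F → 𝕜) := LinearMap.pi fun g => (g.1 : X →ₗ[𝕜] 𝕜)
    have hL : Function.Injective L := by
      rw [← LinearMap.ker_eq_bot, LinearMap.ker_eq_bot']
      intro v hv
      by_contra hv0
      obtain ⟨g, hg, hgv⟩ := hcon v hv0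
      exact hgv (congrFun hv ⟨g, hg⟩)
    exact FiniteDimensional.of_injective L hL
  obtain ⟨v, hv0, hv⟩ := h1
  have hc : ContinuousOn (fun t : ℝ => ‖z + (t : 𝕜) • v‖) (Set.Icc 0 ((1 + ‖z‖) / ‖v‖)) := by
    fun_prop
  have hv' : 0 < ‖v‖ := norm_pos_iff.2 hv0
  have hT : 0 ≤ (1 + ‖z‖) / ‖v‖ := by positivity
  have h2 := intermediate_value_Icc hT hc
  have h3 : (1 : ℝ) ∈ Set.Icc ‖z + ((0 : ℝ) : 𝕜) • v‖ ‖z + (((1 + ‖z‖) / ‖v‖ : ℝ) : 𝕜) • v‖ := by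
    constructor
    · simpa using hz1
    · have h4 : ‖(((1 + ‖z‖) / ‖v‖ : ℝ) : 𝕜) • v‖ = 1 + ‖z‖ := by
        rw [norm_smul, RCLike.norm_ofReal, abs_of_nonneg hT, div_mul_cancel₀ _ hv'.ne']
      have h5 : ‖(((1 + ‖z‖) / ‖v‖ : ℝ) : 𝕜) • v‖ ≤
          ‖z + (((1 + ‖z‖) / ‖v‖ : ℝ) : 𝕜) • v‖ + ‖z‖ := by
        have := norm_sub_le (z + (((1 + ‖z‖) / ‖v‖ : ℝ) : 𝕜) • v) z
        rwa [add_sub_cancel_left] at this
      linarith
  obtain ⟨t, ht, hty⟩ := h2 h3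
  refine ⟨z + (t : 𝕜) • v, hF ?_, hty⟩
  intro g hg
  simp [hv g hg, hδ]

/-- the super ADP for arbitrary vectors `u` -/
lemma super_step (hdim : ¬ FiniteDimensional 𝕜 X) (hs : SuperADP 𝕜 X) {U : Set X} (hU : WO 𝕜 U)
    {z : X} (hz : z ∈ U) (hz1 : ‖z‖ ≤ 1) (u : X) {ε : ℝ} (hε : 0 < ε) :
    ∃ y ∈ U, ‖y‖ ≤ 1 ∧ ∃ θ : 𝕜, ‖θ‖ = 1 ∧ ‖u‖ + 1 - ε ≤ ‖u + θ • y‖ := by
  obtain ⟨y₀, hy₀, hy₀1⟩ := exists_sphere hdim hU hz hz1
  by_cases hu : u = 0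
  · refine ⟨y₀, hy₀, hy₀1.le, 1, by simp, ?_⟩
    simp [hu, hy₀1, hε.le]
  · have hu' : 0 < ‖u‖ := norm_pos_iff.2 hu
    obtain ⟨O, hO, rfl⟩ := hU
    set x : X := ((‖u‖⁻¹ : ℝ) : 𝕜) • u with hx
    have hx1 : ‖x‖ = 1 := by
      rw [hx, norm_smul, RCLike.norm_ofReal, abs_of_pos (inv_pos.2 hu'), inv_mul_cancel₀ hu'.ne']
    have hux : u = ((‖u‖ : ℝ) : 𝕜) • x := by
      rw [hx, smul_smul, ← RCLike.ofReal_mul, mul_inv_cancel₀ hu'.ne', RCLike.ofReal_one, one_smul]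
    have h1 := hs x hx1 {y | y ∈ Metric.closedBall (0 : X) 1 ∧ toWeakSpace 𝕜 X y ∈ O}
      ⟨O, hO, rfl⟩ ⟨y₀, ⟨by simp [hy₀1], hy₀⟩, by simp [hy₀1]⟩
    set ε' : ℝ := ε / (1 + ‖u‖) with hε'
    have hε'0 : 0 < ε' := by positivity
    have h2 : (2 : ℝ) - ε' < 2 := by linarith
    obtain ⟨r, ⟨y, hy, θ, hθ, rfl⟩, hr, -⟩ := h1.exists_between h2
    have hy1 : ‖y‖ ≤ 1 := by simpa using hy.1
    refine ⟨y, hy.2, hy1, θ, hθ, ?_⟩
    have hθy : ‖θ • y‖ ≤ 1 := by rw [norm_smul, hθ, one_mul]; exact hy1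
    have hεu : ε' * (1 + ‖u‖) = ε := by rw [hε']; field_simp
    by_cases hu1 : 1 ≤ ‖u‖
    · have h3 : ((‖u‖ : ℝ) : 𝕜) • (x + θ • y) = (u + θ • y) + ((‖u‖ - 1 : ℝ) : 𝕜) • (θ • y) := by
        rw [smul_add, ← hux, RCLike.ofReal_sub, sub_smul, RCLike.ofReal_one, one_smul]
        abel
      have h4 : ‖((‖u‖ : ℝ) : 𝕜) • (x + θ • y)‖ = ‖u‖ * ‖x + θ • y‖ := by
        rw [norm_smul, RCLike.norm_ofReal, abs_of_pos hu']
      have h5 : ‖((‖u‖ - 1 : ℝ) : 𝕜) • (θ • y)‖ ≤ ‖u‖ - 1 := by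
        rw [norm_smul, RCLike.norm_ofReal, abs_of_nonneg (by linarith)]
        nlinarith
      have h6 := norm_add_le (u + θ • y) (((‖u‖ - 1 : ℝ) : 𝕜) • (θ • y))
      rw [← h3, h4] at h6
      nlinarith
    · push Not at hu1
      have h3 : x + θ • y = (u + θ • y) + ((1 - ‖u‖ : ℝ) : 𝕜) • x := by
        rw [RCLike.ofReal_sub, sub_smul, ← hux, RCLike.ofReal_one, one_smul]
        abel
      have h5 : ‖((1 - ‖u‖ : ℝ) : 𝕜) • x‖ = 1 - ‖u‖ := by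
        rw [norm_smul, RCLike.norm_ofReal, abs_of_nonneg (by linarith), hx1, mul_one]
      have h6 := norm_add_le (u + θ • y) (((1 - ‖u‖ : ℝ) : 𝕜) • x)
      rw [← h3, h5] at h6
      nlinarith

/-- finitely many steps -/
lemma multi {ι : Type*} (s : Finset ι) (V : ι → Set X)
    (h : ∀ i ∈ s, ∀ u : X, ∀ ε : ℝ, 0 < ε → ∃ y ∈ V i, ‖u‖ + 1 - ε ≤ ‖u + y‖) :
    ∀ (u : X) (ε : ℝ), 0 < ε → ∃ y : ι → X, (∀ i ∈ s, y i ∈ V i) ∧
      ‖u‖ + s.card - ε ≤ ‖u + ∑ i ∈ s, y i‖ := by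
  classical
  induction s using Finset.induction_on with
  | empty => intro u ε hε; exact ⟨fun _ => 0, by simp, by simp [hε.le]⟩
  | insert a s ha ih =>
    intro u ε hε
    obtain ⟨y₀, hy₀, h₀⟩ := h a (Finset.mem_insert_self a s) u (ε / 2) (by positivity)
    obtain ⟨y, hy, h1⟩ := ih (fun i hi => h i (Finset.mem_insert_of_mem hi)) (u + y₀) (ε / 2)
      (by positivity)
    refine ⟨fun i => if i = a then y₀ else y i, ?_, ?_⟩
    · intro i hi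
      by_cases hia : i = a
      · subst hia; simpa using hy₀
      · rcases Finset.mem_insert.1 hi with h | h
        · exact absurd h hia
        · simpa [hia] using hy i h
    · have e : ∑ i ∈ s, (if i = a then y₀ else y i) = ∑ i ∈ s, y i := by
        apply Finset.sum_congr rfl
        intro i hi
        have : i ≠ a := fun h => ha (h ▸ hi)
        simp [this]
      rw [Finset.sum_insert ha, e, Finset.card_insert_of_notMem ha]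
      simp only [if_true]
      rw [← add_assoc]
      push_cast
      linarith

lemma re_le_one {f : X →L[𝕜] 𝕜} (hf : ‖f‖ ≤ 1) {y : X} (hy : ‖y‖ ≤ 1) : RCLike.re (f y) ≤ 1 :=
  (RCLike.re_le_norm _).trans ((f.le_of_opNorm_le hf y).trans (by linarith))

lemma re_le_norm' {f : X →L[𝕜] 𝕜} (hf : ‖f‖ ≤ 1) (y : X) : RCLike.re (f y) ≤ ‖y‖ :=
  (RCLike.re_le_norm _).trans ((f.le_of_opNorm_le hf y).trans (by linarith))

lemma neg_norm_le_re {f : X →L[𝕜] 𝕜} (hf : ‖f‖ ≤ 1) (y : X) : -‖y‖ ≤ RCLike.re (f y) := by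
  have h := re_le_norm' hf (-y)
  rw [norm_neg, map_neg, map_neg] at h
  linarith

/-- the functional produced by finitely many steps -/
lemma multi_functional {ι : Type*} (s : Finset ι) (V : ι → Set X) (hV : ∀ i ∈ s, ∀ y ∈ V i, ‖y‖ ≤ 1)
    (h : ∀ i ∈ s, ∀ u : X, ∀ ε : ℝ, 0 < ε → ∃ y ∈ V i, ‖u‖ + 1 - ε ≤ ‖u + y‖)
    (u : X) {ε : ℝ} (hε : 0 < ε) :
    ∃ (y : ι → X) (f : X →L[𝕜] 𝕜), (∀ i ∈ s, y i ∈ V i) ∧ ‖f‖ ≤ 1 ∧ ‖u‖ - ε ≤ RCLike.re (f u) ∧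
      ∀ i ∈ s, 1 - ε ≤ RCLike.re (f (y i)) := by
  obtain ⟨y, hy, h1⟩ := multi s V h u ε hε
  obtain ⟨f, hf, hfv⟩ := exists_dual_vector'' 𝕜 (u + ∑ i ∈ s, y i)
  have h2 : RCLike.re (f u) + ∑ i ∈ s, RCLike.re (f (y i)) = ‖u + ∑ i ∈ s, y i‖ := by
    rw [map_add, map_sum] at hfv
    have := congrArg RCLike.re hfv
    rw [map_add, map_sum, RCLike.ofReal_re] at this
    exact this
  have h3 : ∀ i ∈ s, 0 ≤ 1 - RCLike.re (f (y i)) := fun i hi => by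
    have := re_le_one hf (hV i hi _ (hy i hi))
    linarith
  have h4 : ∑ i ∈ s, (1 - RCLike.re (f (y i))) = s.card - ∑ i ∈ s, RCLike.re (f (y i)) := by
    rw [Finset.sum_sub_distrib]; simp
  have h5 := re_le_norm' hf u
  refine ⟨y, f, hy, hf, ?_, ?_⟩
  · have := Finset.sum_nonneg h3
    linarith
  · intro i hi
    have := Finset.single_le_sum h3 hi
    linarith

/-- upper bound for the values on `U` of the functionals that nearly norm `u` -/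
def Bd (𝕜 : Type*) [RCLike 𝕜] {X : Type*} [NormedAddCommGroup X] [NormedSpace 𝕜 X]
    (u : X) (U : Set X) (c : ℝ) : Prop :=
  ∃ η : ℝ, 0 < η ∧ ∀ f : X →L[𝕜] 𝕜, ‖f‖ ≤ 1 → ‖u‖ - η ≤ RCLike.re (f u) →
    ∀ y ∈ U, ‖y‖ ≤ 1 → RCLike.re (f y) ≤ c

/-- enlarging the vector forces the values -/
lemma extend {u v : X} {f₀ f : X →L[𝕜] 𝕜} (hf₀ : ‖f₀‖ ≤ 1) (hf : ‖f‖ ≤ 1) {η ε t : ℝ} (ht : 0 < t)
    (h0 : ‖u‖ - η ≤ RCLike.re (f₀ u)) (hv : ‖v‖ ≤ 1)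
    (h1 : ‖u + (t : 𝕜) • v‖ - ε ≤ RCLike.re (f (u + (t : 𝕜) • v))) :
    ‖u‖ - (η + ε + 2 * t) ≤ RCLike.re (f u) ∧
      RCLike.re (f₀ v) - (η + ε) / t ≤ RCLike.re (f v) := by
  have e : ∀ k : X →L[𝕜] 𝕜, RCLike.re (k (u + (t : 𝕜) • v)) =
      RCLike.re (k u) + t * RCLike.re (k v) := by
    intro k
    rw [map_add, map_smul, map_add, smul_eq_mul, RCLike.re_ofReal_mul]
  have h2 := re_le_norm' hf₀ (u + (t : 𝕜) • v)
  rw [e] at h2 h1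
  have h3 := re_le_one hf hv
  have h4 := neg_norm_le_re hf₀ v
  have h5 := re_le_norm' hf u
  constructor
  · nlinarith
  · rw [sub_le_iff_le_add, ← sub_le_iff_le_add', le_div_iff₀ ht]
    nlinarith

end Pool.Agent.MP_0d3a63_an
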