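import Pool.Agent.MP_0d3a63_an.Key

/-!
The main lemma: near-extremal values on a weakly open convex piece of the ball are attained at
points where the functional is nearly unimodular.
-/

set_option autoImplicit false

open Set
open scoped Pointwise

namespace Pool.Agent.MP_0d3a63_an

variable {𝕜 : Type*} [RCLike 𝕜] {X : Type*} [NormedAddCommGroup X] [NormedSpace 𝕜 X]
  [NormedSpace ℝ X] [IsScalarTower ℝ 𝕜 X]

lemma re_smul_real (f : X →L[𝕜] 𝕜) (t : ℝ) (y : X) :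
    RCLike.re (f (t • y)) = t * RCLike.re (f y) := by
  have h : t • y = (t : 𝕜) • y := by
    rw [← algebraMap_smul 𝕜 t y, RCLike.algebraMap_eq_ofReal]
  rw [h, map_smul, smul_eq_mul, RCLike.re_ofReal_mul]

lemma convex_re_lt (f : X →L[𝕜] 𝕜) (a : ℝ) : Convex ℝ {y : X | a < RCLike.re (f y)} := by
  intro x hx y hy s t hs ht hst
  simp only [Set.mem_ofPred_eq] at hx hy ⊢
  rw [map_add, map_add, re_smul_real, re_smul_real]
  rcases hs.eq_or_lt with rfl | hs'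
  · rw [zero_add] at hst
    subst hst
    linarith
  · have h1 := mul_lt_mul_of_pos_left hx hs'
    have h2 := mul_le_mul_of_nonneg_left hy.le ht
    have h3 : a = s * a + t * a := by rw [← add_mul, hst, one_mul]
    linarith

lemma convex_nb (z : X) (F : Finset (X →L[𝕜] 𝕜)) (δ : ℝ) : Convex ℝ (nb z F δ) := by
  intro x hx y hy s t hs ht hst g hg
  have e : ∀ (r : ℝ) (v : X), g (r • v) = (r : 𝕜) * g v := by
    intro r v
    rw [← algebraMap_smul 𝕜 r v, RCLike.algebraMap_eq_ofReal, map_smul, smul_eq_mul]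
  have e1 : g (s • x + t • y) - g z = (s : 𝕜) * (g x - g z) + (t : 𝕜) * (g y - g z) := by
    have e2 : g z = ((s + t : ℝ) : 𝕜) * g z := by rw [hst]; simp
    rw [map_add, e, e]
    conv_lhs => rw [e2]
    push_cast
    ring
  rw [e1]
  refine (norm_add_le _ _).trans_lt ?_
  rw [norm_mul, norm_mul, RCLike.norm_ofReal, RCLike.norm_ofReal, abs_of_nonneg hs,
    abs_of_nonneg ht]
  have h1 := hx g hg
  have h2 := hy g hg
  rcases hs.eq_or_lt with rfl | hs'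
  · rw [zero_add] at hst
    subst hst
    linarith
  · have h3 := mul_lt_mul_of_pos_left h1 hs'
    have h4 := mul_le_mul_of_nonneg_left h2.le ht
    have h5 : δ = s * δ + t * δ := by rw [← add_mul, hst, one_mul]
    linarith

/-- main lemma -/
theorem key (hdim : ¬ FiniteDimensional 𝕜 X) (hs : SuperADP 𝕜 X) (hr : StronglyRegular 𝕜 X)
    {u : X} {U : Set X} (hU : WO 𝕜 U) (hc : Convex ℝ U) {c : ℝ} (h : ¬ Bd 𝕜 u U c)
    {η : ℝ} (hη : 0 < η) :
    ∃ (f : X →L[𝕜] 𝕜) (y : X), ‖f‖ ≤ 1 ∧ ‖u‖ - η ≤ RCLike.re (f u) ∧ y ∈ U ∧ ‖y‖ ≤ 1 ∧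
      1 - η ≤ ‖f y‖ ∧ c - η ≤ RCLike.re (f y) := by
  classical
  -- it is enough to treat small `η`
  wlog hη1 : η ≤ 1 generalizing η
  · push Not at hη1
    obtain ⟨f, y, h1, h2, h3, h4, h5, h6⟩ := this (η := 1) one_pos le_rfl
    exact ⟨f, y, h1, by linarith, h3, h4, by linarith, by linarith⟩
  set κ : ℝ := η ^ 2 / 64 with hκ
  set t : ℝ := η / 8 with ht
  have hκ0 : 0 < κ := by positivity
  have ht0 : 0 < t := by positivity
  have hκη : κ ≤ η / 64 := by rw [hκ]; nlinarith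
  have hκt : (κ + κ) / t = η / 4 := by rw [hκ, ht]; field_simp; ring
  unfold Bd at h
  push Not at h
  obtain ⟨f₀, hf₀, hf₀u, z₀, hz₀, hz₀1, hz₀c⟩ := h κ hκ0
  set T : Set X := (U ∩ {y | c < RCLike.re (f₀ y)}) ∩ Metric.closedBall (0 : X) 1 with hT
  have hTc : Convex ℝ T :=
    (hc.inter (convex_re_lt f₀ c)).inter (convex_closedBall (0 : X) 1)
  have hTn : T.Nonempty := ⟨z₀, ⟨hz₀, hz₀c⟩, by simpa using hz₀1⟩
  have hTb : Bornology.IsBounded T := Metric.isBounded_closedBall.subset Set.inter_subset_right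
  obtain ⟨n, S, w, hS, hw, hw1, hd⟩ := hr (closure T) hTn.closure isClosed_closure hTb.closure
    hTc.closure κ hκ0
  choose g a m hg ha hm hSe hSn using hS
  have h1 : ∀ i, ∃ y, y ∈ T ∧ m i - a i < RCLike.re (g i y) := by
    intro i
    obtain ⟨x, hx⟩ := hSn i
    rw [hSe i] at hx
    have hop : IsOpen {y : X | m i - a i < RCLike.re (g i y)} :=
      isOpen_lt continuous_const (RCLike.continuous_re.comp (g i).continuous)
    obtain ⟨y, hy1, hy2⟩ := mem_closure_iff.1 hx.1 _ hop hx.2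
    exact ⟨y, hy2, hy1⟩
  choose y₀ hy₀T hy₀g using h1
  have hy₀S : ∀ i, y₀ i ∈ S i := fun i => by
    rw [hSe i]; exact ⟨subset_closure (hy₀T i), hy₀g i⟩
  set z : X := ∑ i, w i • y₀ i with hz
  have hzT : z ∈ T := hTc.sum_mem (fun i _ => hw i) hw1 (fun i _ => hy₀T i)
  have hz1 : ‖z‖ ≤ 1 := by simpa using hzT.2
  have hzc : c < RCLike.re (f₀ z) := hzT.1.2
  -- the pieces
  set V : Fin n → Set X := fun i => {v | ∃ y ∈ (U ∩ {y | c < RCLike.re (f₀ y)}) ∩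
    {y | m i - a i < RCLike.re (g i y)}, ‖y‖ ≤ 1 ∧ ∃ θ : 𝕜, ‖θ‖ = 1 ∧ v = θ • y} with hV
  have hVstep : ∀ i ∈ (Finset.univ : Finset (Fin n)), ∀ u : X, ∀ ε : ℝ, 0 < ε →
      ∃ v ∈ V i, ‖u‖ + 1 - ε ≤ ‖u + v‖ := by
    intro i _ u ε hε
    have hWO : WO 𝕜 ((U ∩ {y | c < RCLike.re (f₀ y)}) ∩ {y | m i - a i < RCLike.re (g i y)}) :=
      (hU.inter (WO.half f₀ c)).inter (WO.half (g i) _)
    have hyn : ‖y₀ i‖ ≤ 1 := by simpa using (hy₀T i).2
    obtain ⟨y, hy, hy1, θ, hθ, h2⟩ := super_step hdim hs hWO (z := y₀ i)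
      ⟨(hy₀T i).1, hy₀g i⟩ hyn u hε
    exact ⟨θ • y, ⟨y, hy, hy1, θ, hθ, rfl⟩, h2⟩
  have hVn : ∀ i ∈ (Finset.univ : Finset (Fin n)), ∀ v ∈ V i, ‖v‖ ≤ 1 := by
    rintro i _ v ⟨y, _, hy1, θ, hθ, rfl⟩
    rw [norm_smul, hθ, one_mul]
    exact hy1
  obtain ⟨v, f, hv, hf, hfu, hfv⟩ := multi_functional (𝕜 := 𝕜) Finset.univ V hVn hVstep
    (u + (t : 𝕜) • z) hκ0
  choose y hy hy1 θ hθ hvy using fun i => hv i (Finset.mem_univ i)
  obtain ⟨e1, e2⟩ := extend hf₀ hf ht0 hf₀u hz1 hfu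
  rw [hκt] at e2
  have hyS : ∀ i, y i ∈ S i := fun i => by
    rw [hSe i]
    exact ⟨subset_closure ⟨(hy i).1, by simpa using hy1 i⟩, (hy i).2⟩
  -- both averages are in the convex combination of the slices
  have hsub : (∑ i, w i • S i) ⊆ Metric.closedBall (0 : X) 1 := by
    intro x hx
    rw [Set.mem_finsetSum] at hx
    obtain ⟨k, hk, rfl⟩ := hx
    have hk' : ∀ i, ∃ s ∈ Metric.closedBall (0 : X) 1, w i • s = k i := by
      intro i
      obtain ⟨s, hs1, hs2⟩ := hk (Finset.mem_univ i)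
      rw [hSe i] at hs1
      refine ⟨s, ?_, hs2⟩
      exact closure_minimal (Set.inter_subset_right) Metric.isClosed_closedBall hs1.1
    choose s hs1 hs2 using hk'
    have : ∑ i, k i = ∑ i, w i • s i := Finset.sum_congr rfl fun i _ => (hs2 i).symm
    rw [this]
    exact (convex_closedBall (0 : X) 1).sum_mem (fun i _ => hw i) hw1 (fun i _ => hs1 i)
  have hmem : ∀ k : Fin n → X, (∀ i, k i ∈ S i) → ∑ i, w i • k i ∈ ∑ i, w i • S i := by
    intro k hk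
    rw [Set.mem_finsetSum]
    exact ⟨fun i => w i • k i, fun {i} _ => Set.smul_mem_smul_set (hk i), rfl⟩
  have hdist : ‖z - ∑ i, w i • y i‖ < κ := by
    rw [← dist_eq_norm]
    exact (Metric.dist_le_diam_of_mem (Metric.isBounded_closedBall.subset hsub)
      (hmem y₀ hy₀S) (hmem y hyS)).trans_lt hd
  have hre : RCLike.re (f z) - κ ≤ ∑ i, w i * RCLike.re (f (y i)) := by
    have h2 := re_le_norm' hf (z - ∑ i, w i • y i)
    have h3 : RCLike.re (f (∑ i, w i • y i)) = ∑ i, w i * RCLike.re (f (y i)) := by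
      rw [map_sum, map_sum]
      simp only [re_smul_real]
    rw [map_sub, map_sub, h3] at h2
    linarith
  have hex : ∃ i, c - η ≤ RCLike.re (f (y i)) := by
    by_contra hcon
    push Not at hcon
    have h2 : ∑ i, w i * RCLike.re (f (y i)) ≤ ∑ i, w i * (c - η) :=
      Finset.sum_le_sum fun i _ => mul_le_mul_of_nonneg_left (hcon i).le (hw i)
    rw [← Finset.sum_mul, hw1, one_mul] at h2
    linarith
  obtain ⟨i, hi⟩ := hex
  refine ⟨f, y i, hf, ?_, (hy i).1.1, hy1 i, ?_, hi⟩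
  · have : κ + κ + 2 * t ≤ η := by rw [ht]; linarith
    linarith
  · have h2 := hfv i (Finset.mem_univ i)
    rw [hvy i, map_smul, smul_eq_mul] at h2
    have h3 := RCLike.re_le_norm (θ i * f (y i))
    rw [norm_mul, hθ i, one_mul] at h3
    linarith

omit [NormedSpace ℝ X] [IsScalarTower ℝ 𝕜 X] in
/-- monotonicity -/
lemma Bd.mono {u : X} {U V : Set X} {c d : ℝ} (h : Bd 𝕜 u U c) (hVU : V ⊆ U) (hcd : c ≤ d) :
    Bd 𝕜 u V d := by
  obtain ⟨η, hη, h⟩ := h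
  exact ⟨η, hη, fun f hf hfu y hy hy1 => (h f hf hfu y (hVU hy) hy1).trans hcd⟩

omit [NormedSpace ℝ X] [IsScalarTower ℝ 𝕜 X] in
/-- lower bound by the norm of a point -/
lemma Bd.ge {u : X} {U : Set X} {c : ℝ} (h : Bd 𝕜 u U c) {z : X} (hz : z ∈ U) (hz1 : ‖z‖ ≤ 1) :
    -‖z‖ ≤ c := by
  obtain ⟨η, hη, h⟩ := h
  obtain ⟨f, hf, hfv⟩ := exists_dual_vector'' 𝕜 u
  have h1 := h f hf (by rw [hfv, RCLike.ofReal_re]; linarith) z hz hz1
  exact (neg_norm_le_re hf z).trans h1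

omit [NormedSpace ℝ X] [IsScalarTower ℝ 𝕜 X] in
/-- points of norm less than one -/
lemma exists_lt_one {U : Set X} (hU : WO 𝕜 U) {z : X} (hz : z ∈ U) (hz1 : ‖z‖ ≤ 1) :
    ∃ y ∈ U, ‖y‖ < 1 := by
  obtain ⟨O, hO, rfl⟩ := hU
  have h1 : Continuous fun s : ℝ => toWeakSpace 𝕜 X ((s : 𝕜) • z) :=
    (toWeakSpaceCLM 𝕜 X).continuous.comp (by fun_prop)
  have h2 : (fun s : ℝ => toWeakSpace 𝕜 X ((s : 𝕜) • z)) ⁻¹' O ∈ nhds (1 : ℝ) := by
    apply (hO.preimage h1).mem_nhds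
    simpa using hz
  obtain ⟨ε, hε, h3⟩ := Metric.mem_nhds_iff.1 h2
  set s : ℝ := 1 - min ε 1 / 2 with hs
  have hs0 : 0 < min ε 1 := lt_min hε one_pos
  have hs1 : min ε 1 ≤ 1 := min_le_right _ _
  have hsε : min ε 1 ≤ ε := min_le_left _ _
  refine ⟨(s : 𝕜) • z, ?_, ?_⟩
  · apply h3
    rw [Metric.mem_ball, Real.dist_eq, hs, abs_lt]
    constructor <;> linarith
  · rw [norm_smul, RCLike.norm_ofReal, abs_of_pos (by rw [hs]; linarith)]
    have : s < 1 := by rw [hs]; linarith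
    nlinarith [norm_nonneg z]

end Pool.Agent.MP_0d3a63_an
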