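import Pool.Agent.MP_0d3a63_an.Main

/-!
The final contradiction, and the real case.
-/

set_option autoImplicit false

open Set
open scoped Pointwise

namespace Pool.Agent.MP_0d3a63_an

section

variable {𝕜 : Type*} [RCLike 𝕜] {X : Type*} [NormedAddCommGroup X] [NormedSpace 𝕜 X]
  [NormedSpace ℝ X] [IsScalarTower ℝ 𝕜 X]

/-- If no weakly open convex piece of the ball has restricted values then `X` is not strongly
regular. -/
theorem contra (hr : StronglyRegular 𝕜 X)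
    (hD : ∀ (u : X) (U : Set X), WO 𝕜 U → Convex ℝ U → (∃ z ∈ U, ‖z‖ ≤ 1) →
      ∀ c : ℝ, c < 1 → ¬ Bd 𝕜 u U c) : False := by
  classical
  obtain ⟨n, S, w, hS, hw, hw1, hd⟩ := hr (Metric.closedBall (0 : X) 1) ⟨0, by simp⟩
    Metric.isClosed_closedBall Metric.isBounded_closedBall (convex_closedBall (0 : X) 1) 1 one_pos
  choose g a m hg ha hm hSe hSn using hS
  choose y₀ hy₀ using hSn
  have hy₀' : ∀ i, ‖y₀ i‖ ≤ 1 ∧ m i - a i < RCLike.re (g i (y₀ i)) := fun i => by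
    have h := hy₀ i
    rw [hSe i] at h
    exact ⟨by simpa using h.1, h.2⟩
  set V : Fin n × Bool → Set X := fun p => {y | ‖y‖ ≤ 1 ∧
    m p.1 - a p.1 < RCLike.re ((if p.2 then g p.1 else -g p.1) y)} with hV
  have hVstep : ∀ p ∈ (Finset.univ : Finset (Fin n × Bool)), ∀ u : X, ∀ ε : ℝ, 0 < ε →
      ∃ v ∈ V p, ‖u‖ + 1 - ε ≤ ‖u + v‖ := by
    intro p _ u ε hε
    have h1 := hD u {y | m p.1 - a p.1 < RCLike.re ((if p.2 then g p.1 else -g p.1) y)}
      (WO.half _ _) (convex_re_lt _ _) (by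
        by_cases hp : p.2 = true
        · exact ⟨y₀ p.1, by simpa [hp] using (hy₀' p.1).2, (hy₀' p.1).1⟩
        · exact ⟨-y₀ p.1, by simpa [hp] using (hy₀' p.1).2, by simpa using (hy₀' p.1).1⟩)
      (1 - ε / 2) (by linarith)
    unfold Bd at h1
    push Not at h1
    obtain ⟨f, hf, hfu, y, hy, hy1, hfy⟩ := h1 (ε / 2) (by positivity)
    refine ⟨y, ⟨hy1, hy⟩, ?_⟩
    have h2 := re_le_norm' hf (u + y)
    rw [map_add, map_add] at h2
    linarith
  have hVn : ∀ p ∈ (Finset.univ : Finset (Fin n × Bool)), ∀ v ∈ V p, ‖v‖ ≤ 1 :=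
    fun p _ v hv => hv.1
  obtain ⟨v, f, hv, hf, -, hfv⟩ := multi_functional (𝕜 := 𝕜) Finset.univ V hVn hVstep
    (0 : X) (ε := 1 / 4) (by norm_num)
  have hA : ∀ i, v (i, true) ∈ S i := fun i => by
    have h := hv (i, true) (Finset.mem_univ _)
    rw [hSe i]
    exact ⟨by simpa using h.1, by simpa using h.2⟩
  have hB : ∀ i, -v (i, false) ∈ S i := fun i => by
    have h := hv (i, false) (Finset.mem_univ _)
    rw [hSe i]
    exact ⟨by simpa using h.1, by simpa using h.2⟩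
  have hsub : (∑ i, w i • S i) ⊆ Metric.closedBall (0 : X) 1 := by
    intro x hx
    rw [Set.mem_finsetSum] at hx
    obtain ⟨k, hk, rfl⟩ := hx
    have hk' : ∀ i, ∃ s ∈ Metric.closedBall (0 : X) 1, w i • s = k i := by
      intro i
      obtain ⟨s, hs1, hs2⟩ := hk (Finset.mem_univ i)
      rw [hSe i] at hs1
      exact ⟨s, hs1.1, hs2⟩
    choose s hs1 hs2 using hk'
    have : ∑ i, k i = ∑ i, w i • s i := Finset.sum_congr rfl fun i _ => (hs2 i).symm
    rw [this]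
    exact (convex_closedBall (0 : X) 1).sum_mem (fun i _ => hw i) hw1 (fun i _ => hs1 i)
  have hmem : ∀ k : Fin n → X, (∀ i, k i ∈ S i) → ∑ i, w i • k i ∈ ∑ i, w i • S i := by
    intro k hk
    rw [Set.mem_finsetSum]
    exact ⟨fun i => w i • k i, fun {i} _ => Set.smul_mem_smul_set (hk i), rfl⟩
  have hdist : ‖∑ i, w i • v (i, true) - ∑ i, w i • -v (i, false)‖ < 1 := by
    rw [← dist_eq_norm]
    exact (Metric.dist_le_diam_of_mem (Metric.isBounded_closedBall.subset hsub)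
      (hmem _ hA) (hmem _ hB)).trans_lt hd
  have h2 := re_le_norm' hf (∑ i, w i • v (i, true) - ∑ i, w i • -v (i, false))
  have e1 : ∀ k : Fin n → X, RCLike.re (f (∑ i, w i • k i)) = ∑ i, w i * RCLike.re (f (k i)) := by
    intro k
    rw [map_sum, map_sum]
    simp only [re_smul_real]
  rw [map_sub, map_sub, e1, e1] at h2
  have h3 : ∑ i, w i * (3 / 4) ≤ ∑ i, w i * RCLike.re (f (v (i, true))) :=
    Finset.sum_le_sum fun i _ => mul_le_mul_of_nonneg_left
      (by linarith [hfv (i, true) (Finset.mem_univ _)]) (hw i)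
  have h4 : ∑ i, w i * RCLike.re (f (-v (i, false))) ≤ ∑ i, w i * (-(3 / 4)) :=
    Finset.sum_le_sum fun i _ => mul_le_mul_of_nonneg_left
      (by rw [map_neg, map_neg]; linarith [hfv (i, false) (Finset.mem_univ _)]) (hw i)
  rw [← Finset.sum_mul, hw1] at h3 h4
  linarith

end

section

variable {X : Type*} [NormedAddCommGroup X] [NormedSpace ℝ X]

theorem real_unbounded (hdim : ¬ FiniteDimensional ℝ X) (hs : SuperADP ℝ X)
    (hr : StronglyRegular ℝ X) (u : X) (U : Set X) (hU : WO ℝ U) (hc : Convex ℝ U)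
    (hz : ∃ z ∈ U, ‖z‖ ≤ 1) (c : ℝ) (hc1 : c < 1) : ¬ Bd ℝ u U c := by
  intro hB
  obtain ⟨z₀, hz₀, hz₀1⟩ := hz
  obtain ⟨z, hz, hz1⟩ := exists_lt_one hU hz₀ hz₀1
  have h1 : ¬ Bd ℝ u U (-(1 + ‖z‖) / 2) := by
    intro h
    have := h.ge hz hz1.le
    linarith
  obtain ⟨η, hη, hB⟩ := hB
  set κ : ℝ := min (min η (1 - c)) (1 - ‖z‖) / 8 with hκ
  have h0 : 0 < min (min η (1 - c)) (1 - ‖z‖) :=
    lt_min (lt_min hη (by linarith)) (by linarith)
  have h2 : min (min η (1 - c)) (1 - ‖z‖) ≤ η := (min_le_left _ _).trans (min_le_left _ _)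
  have h3 : min (min η (1 - c)) (1 - ‖z‖) ≤ 1 - c := (min_le_left _ _).trans (min_le_right _ _)
  have h4 : min (min η (1 - c)) (1 - ‖z‖) ≤ 1 - ‖z‖ := min_le_right _ _
  obtain ⟨f, y, hf, hfu, hy, hy1, h5, h6⟩ := key hdim hs hr hU hc h1 (η := κ) (by positivity)
  have h7 := hB f hf (by rw [hκ] at hfu; linarith) y hy hy1
  rw [Real.norm_eq_abs] at h5
  simp only [RCLike.re_to_real] at h6 h7
  rcases abs_cases (f y) with ⟨h8, _⟩ | ⟨h8, _⟩ <;> rw [h8] at h5 <;> rw [hκ] at h5 h6 <;> linarith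

end

end Pool.Agent.MP_0d3a63_an
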